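import Pool.Agent.Lib.MP_f2cf74_an.Bridge

open Set MeasureTheory
open scoped ContDiff Manifold

namespace Pool.Agent.Results.MP_f2cf74_an.Integrable

open Pool.Agent.Lib.MP_f2cf74_an.St

/-- On an almost complex surface, let `u` be plurisubharmonic and `v` bounded plurisubharmonic on
a domain `Ω`.  The current `(i∂∂bar v)²` is represented by a measure, and for every such measure
`u` is measurable and `|u|` has finite integral over each compact subset of `Ω`. -/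
theorem result {M : Type*} [TopologicalSpace M] [SecondCountableTopology M] [ChartedSpace R4 M]
    [IsManifold 𝓘(ℝ, R4) ∞ M] [MeasurableSpace M] [BorelSpace M] (J : EndField R4 M)
    (hJ : IsACS J) (Ω : Set M) (hΩ : IsOpen Ω) (hc : IsConnected Ω) (u : M → EReal)
    (hu : IsPSH J Ω u) (v : M → ℝ) (hv : IsPSH J Ω fun x => (v x : EReal))
    (hb : ∃ B, ∀ x ∈ Ω, |v x| ≤ B) :
    (∃ μ : Measure M, IsMA basis4 J Ω v μ) ∧ ∀ μ : Measure M, IsMA basis4 J Ω v μ →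
      AEMeasurable u (μ.restrict Ω) ∧
        ∀ K : Set M, IsCompact K → K ⊆ Ω → ∫⁻ x in K, (u x).abs ∂μ < ⊤ := by
  have hJ' := (Pool.Agent.Lib.MP_f2cf74_an.br_acs J).1 hJ
  have hu' := (Pool.Agent.Lib.MP_f2cf74_an.br_psh J Ω u).1 hu
  have hv' := (Pool.Agent.Lib.MP_f2cf74_an.br_psh J Ω _).1 hv
  obtain ⟨μ0, hμ0⟩ := Pool.Agent.Lib.MP_f2cf74_an.exMAM hJ' hΩ hv' hb
  exact ⟨⟨μ0, (Pool.Agent.Lib.MP_f2cf74_an.br_ma J Ω v μ0).2 hμ0⟩, fun μ hμ =>
    ⟨Pool.Agent.Lib.MP_f2cf74_an.aemeasurable_uscM hΩ hu.1 μ, fun _ hK hKΩ =>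
      Pool.Agent.Lib.MP_f2cf74_an.globM hJ' hΩ hc hu' hv' hb
        ((Pool.Agent.Lib.MP_f2cf74_an.br_ma J Ω v μ).1 hμ) hK hKΩ⟩⟩

end Pool.Agent.Results.MP_f2cf74_an.Integrable
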